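import Pool.Agent.Helper41.LD2.Defs
import Pool.Agent.Helper88.LD.WB2

/-!
# Project LD2, block WB22: the pending variance
-/

set_option autoImplicit false

namespace Pool.Agent.Helper88.LD2

open Set MeasureTheory Filter Topology
open Pool.Agent.Helper41.LD (av var ind haar idx)
open Pool.Agent.Helper41.LD2
open Pool.Agent.Helper88.LD (ind_nonneg ind_le_one measurable_ind measurable_haar haar_sq haar_sq_le_one abs_haar_le
  var_nonneg var_le av_mono av_children)

variable {U : ℕ → ℝ → ℝ} {β : ℝ}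

lemma var_haar_le (hU : ∀ j, Measurable (U j)) (k i j : ℕ) (a : ℝ) {ℓ : ℝ} (hℓ : 0 < ℓ) :
    var (fun x => haar k i (U j x)) a ℓ ≤ av (fun x => ind k i (U j x)) a ℓ := by
  refine (var_le ((measurable_haar k i).comp (hU j)) (C := 1) (fun x => abs_haar_le k i _) a hℓ).trans ?_
  refine av_mono (C := 1) (((measurable_haar k i).comp (hU j)).pow_const 2)
    ((measurable_ind k i).comp (hU j)) (fun x => ?_) (fun x => ?_) (fun x => haar_sq k i _) a hℓ
  · rw [abs_of_nonneg (sq_nonneg _)]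
    exact haar_sq_le_one k i _
  · rw [Function.comp_apply, abs_of_nonneg (ind_nonneg _ _ _)]
    exact ind_le_one _ _ _

lemma av_ind_le_one (hU : ∀ j, Measurable (U j)) (k i j : ℕ) (a : ℝ) {ℓ : ℝ} (hℓ : 0 < ℓ) :
    av (fun x => ind k i (U j x)) a ℓ ≤ 1 := by
  have h := av_mono (f := fun x => ind k i (U j x)) (g := fun _ => 1) (C := 1)
    ((measurable_ind k i).comp (hU j)) measurable_const (fun x => by
      rw [abs_of_nonneg (ind_nonneg _ _ _)]
      exact ind_le_one _ _ _) (fun x => by norm_num) (fun x => ind_le_one _ _ _) a hℓ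
  refine h.trans (le_of_eq ?_)
  unfold av
  rw [intervalIntegral.integral_const, smul_eq_mul]
  field_simp
  ring

theorem W_nonneg (n r k i : ℕ) (a : ℝ) {ℓ : ℝ} (hℓ : 0 < ℓ) : 0 ≤ W U n r k i a ℓ := by
  unfold W
  exact mul_nonneg (Nat.cast_nonneg _) (Finset.sum_nonneg fun j _ => var_nonneg _ _ hℓ)

theorem W_le (hU : ∀ j, Measurable (U j)) (n r k i : ℕ) (a : ℝ) {ℓ : ℝ} (hℓ : 0 < ℓ) : W U n r k i a ℓ ≤ (r : ℝ) ^ 2 := by
  unfold W
  have h : ∑ j ∈ Finset.Ico (n - r) n, var (fun x => haar k i (U j x)) a ℓ ≤ r := by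
    refine (Finset.sum_le_card_nsmul _ _ 1 fun j _ =>
      (var_haar_le hU k i j a hℓ).trans (av_ind_le_one hU k i j a hℓ)).trans ?_
    rw [Nat.card_Ico, nsmul_eq_mul, mul_one]
    exact_mod_cast (by omega : n - (n - r) ≤ r)
  rw [sq]
  exact mul_le_mul_of_nonneg_left h (Nat.cast_nonneg _)

theorem W_mean {n m L r : ℕ} (k i : ℕ) {a ℓ : ℝ} (hw : Wd U β n m a ℓ) (hm : n + L ≤ m) {B : ℕ} (hB : 1 ≤ B) (hr : r ≤ L) :
    ∑ b ∈ Finset.range B, W U (n + L) r k i (a + b * (ℓ / B)) (ℓ / B) ≤ B * (4 * r ^ 2 * (1 / 2) ^ k) := by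
  have hB0 : (0 : ℝ) < B := by exact_mod_cast hB
  have hℓ : 0 < ℓ := hw.pos
  have hℓB : 0 < ℓ / B := by positivity
  have h1 : ∀ j ∈ Finset.Ico (n + L - r) (n + L),
      ∑ b ∈ Finset.range B, var (fun x => haar k i (U j x)) (a + b * (ℓ / B)) (ℓ / B) ≤ B * (4 * (1 / 2) ^ k) := by
    intro j hj
    rw [Finset.mem_Ico] at hj
    refine (Finset.sum_le_sum fun b _ => var_haar_le hw.meas k i j _ hℓB).trans ?_
    rw [av_children (f := fun x => ind k i (U j x)) ((measurable_ind k i).comp (hw.meas j)) (C := 1)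
      (fun x => by
        rw [abs_of_nonneg (ind_nonneg _ _ _)]
        exact ind_le_one _ _ _) a hℓ hB]
    refine mul_le_mul_of_nonneg_left ?_ hB0.le
    unfold av
    rw [div_le_iff₀ hℓ]
    exact hw.ind_le k i j (by omega) (by omega)
  unfold W
  rw [← Finset.mul_sum, Finset.sum_comm]
  have h6 : ∑ j ∈ Finset.Ico (n + L - r) (n + L),
      ∑ b ∈ Finset.range B, var (fun x => haar k i (U j x)) (a + b * (ℓ / B)) (ℓ / B) ≤
      r * (B * (4 * (1 / 2) ^ k)) := by
    refine (Finset.sum_le_card_nsmul _ _ _ h1).trans ?_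
    rw [Nat.card_Ico, nsmul_eq_mul]
    refine mul_le_mul_of_nonneg_right ?_ (by positivity)
    exact_mod_cast (by omega : n + L - (n + L - r) ≤ r)
  calc _ ≤ (r : ℝ) * (r * (B * (4 * (1 / 2) ^ k))) := mul_le_mul_of_nonneg_left h6 (Nat.cast_nonneg _)
    _ = _ := by ring

end Pool.Agent.Helper88.LD2
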